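import Mathlib
import Pool.Agent.Helper92.CY.Frame2

/-!
# CYThreefolds: the denominators do not vanish on a component (piece CY-12d)
-/

namespace Pool.Agent.Helper31.CYD

open MvPolynomial Pool.Agent.Helper37.RP Pool.Agent.Helper76.CY Pool.Agent.Helper92.CY

theorem onX_swap {R S : Type*} [CommRing R] [CommRing S] [Algebra R S] (c : Ix → R)
    (x y : Fin 4 → S) (h : OnX c x y) : OnX (fun e => c (swI e)) y x := by
  obtain ⟨h1, h2, h3⟩ := h
  refine ⟨?_, ?_, ?_⟩
  · rw [pL_sw]
    exact (onL_swap _ _ _).mpr h1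
  · rw [pL'_sw]
    exact (onL_swap _ _ _).mpr h2
  · rw [pQ_sw]
    exact (onQ_swap _ _ _).mpr h3

/-- The first case: some form of degree six does not vanish at `x`. -/
theorem case_one {K Ω : Type} [Field K] [Field Ω] [Algebra K Ω] (h2 : (2 : K) ≠ 0)
    (c : Ix → K) (x y : Fin 3 → Ω) (hon : OnX c (aff x) (aff y))
    (h0 : aeval (aff x) (cH c 0 0) = 0) (hc : ∃ i j, aeval (aff x) (cH c i j) ≠ 0) (j : Fin 3) :
    ¬ Transcendental (IntermediateField.adjoin K (Set.range x)) (y j) := by
  obtain ⟨hon1, hon2, hon3⟩ := hon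
  have hay : aff y ≠ 0 := fun h => one_ne_zero (congrFun h 0 : (1 : Ω) = 0)
  obtain ⟨y', hy', -, -, -, e⟩ := exists_other4 (fun i j => pL c j i) (fun i j => pL' c j i)
    (fun i j k l => pQ c k l i j) (fun i j k l => pQ_symm' c k l i j) (aff y) (aff x) hay
    ((onL_swap _ _ _).mpr hon1) ((onL_swap _ _ _).mpr hon2) ((onQ_swap _ _ _).mpr hon3) hc
  have e' : ∀ i j, aeval (aff x) (cH c i j) = aff y i * y' j + aff y j * y' i := e
  set F := IntermediateField.adjoin K (Set.range x) with hF
  have hmem : ∀ G : MvPolynomial (Fin 4) K, aeval (aff x) G ∈ F := by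
    intro G
    rw [← aeval_deh]
    have h3 : aeval x (deh G) ∈ Algebra.adjoin K (Set.range x) := by
      rw [Algebra.adjoin_range_eq_range_aeval]
      exact ⟨_, rfl⟩
    exact IntermediateField.algebra_adjoin_le_adjoin _ _ h3
  have two : (2 : Ω) ≠ 0 := by
    intro h
    apply h2
    apply (algebraMap K Ω).injective
    rw [map_zero, map_ofNat]
    exact h
  have a0 : aff y 0 = 1 := rfl
  have y0 : y' 0 = 0 := by
    have h3 := e' 0 0
    rw [h0, a0, one_mul] at h3
    have h4 : (2 : Ω) * y' 0 = 0 := by rw [two_mul]; exact h3.symm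
    exact (mul_eq_zero.mp h4).resolve_left two
  have yF : ∀ j, y' j ∈ F := by
    intro j
    have h3 := e' 0 j
    rw [a0, one_mul, y0, mul_zero, add_zero] at h3
    rw [← h3]
    exact hmem _
  obtain ⟨j0, hj0⟩ : ∃ j, y' j ≠ 0 := by
    by_contra hcon
    push Not at hcon
    exact hy' (funext hcon)
  have b0 : aff y j0 ∈ F := by
    have h3 := e' j0 j0
    have h4 : aff y j0 = aeval (aff x) (cH c j0 j0) * (2 * y' j0)⁻¹ := by
      rw [h3]
      field_simp
      ring
    rw [h4]
    refine F.mul_mem (hmem _) (F.inv_mem (F.mul_mem ?_ (yF _)))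
    exact ofNat_mem F 2
  have b : ∀ i, aff y i ∈ F := by
    intro i
    have h3 := e' i j0
    have h4 : aff y i = (aeval (aff x) (cH c i j0) - aff y j0 * y' i) * (y' j0)⁻¹ := by
      rw [h3]
      field_simp
      ring
    rw [h4]
    exact F.mul_mem (F.sub_mem (hmem _) (F.mul_mem b0 (yF _))) (F.inv_mem (yF _))
  intro ht
  exact ht (isAlgebraic_algebraMap (⟨y j, b j.succ⟩ : F))

/-- The second case: `x` is a constant point. -/
theorem case_two {K k Ω : Type} [Field K] [Field k] [Field Ω] [Algebra K k] [Algebra K Ω]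
    [Algebra k Ω] [IsScalarTower K k Ω] [IsAlgClosed k] [Algebra.IsAlgebraic K k]
    (c : Ix → K)
    (hb : ∀ z : Fin 4 → k, (∀ i j, eval z (cH (fun e => algebraMap K k (c e)) i j) = 0) →
      z 3 = 0 → z = 0)
    (hl : ∀ z : Fin 4 → k, z ≠ 0 → ∃ w, ¬ OnL (pL fun e => algebraMap K k (c e)) z w)
    (x y : Fin 3 → Ω) (hon : OnX c (aff x) (aff y))
    (hc : ∀ i j, aeval (aff x) (cH c i j) = 0) :
    ¬ AlgebraicIndependent K y ∧ ∀ j, IsAlgebraic K (x j) := by
  have hmap : ∀ i j, cH (fun e => algebraMap K k (c e)) i j =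
      MvPolynomial.map (algebraMap K k) (cH c i j) := by
    intro i j
    have h3 := map_chow4 (algebraMap K k) (fun i j => pL c j i) (fun i j => pL' c j i)
      (fun i j k l => pQ c k l i j) i j
    refine Eq.trans ?_ h3.symm
    have h4 : (fun i j a b => pQ (fun e => algebraMap K k (c e)) a b i j) =
        fun i j a b => algebraMap K k (pQ c a b i j) := by
      funext a b e f
      simp only [pQ, map_add]
    rw [cH, h4]
    rfl
  have hck : ∀ i j, aeval (aff x) (cH (fun e => algebraMap K k (c e)) i j) = 0 := by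
    intro i j
    rw [hmap, aeval_map_algebraMap]
    exact hc i j
  have hx0 : aff x ≠ 0 := fun h => one_ne_zero (congrFun h 0 : (1 : Ω) = 0)
  obtain ⟨l, z, hz⟩ := Frame2.bad_point
    (fun p : Fin 4 × Fin 4 => cH (fun e => algebraMap K k (c e)) p.1 p.2) (d := 6)
    (fun p => isHomogeneous_chow4 _ _ _ _ _) (fun z hz => hb z fun i j => hz (i, j)) (aff x) hx0
    (fun p => hck p.1 p.2)
  have hz1 : (1 : Ω) = l * algebraMap k Ω (z 0) := hz 0
  have hz0 : z 0 ≠ 0 := by
    intro h
    rw [h, map_zero, mul_zero] at hz1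
    exact one_ne_zero hz1
  have hza : algebraMap k Ω (z 0) ≠ 0 := by
    rw [Ne, map_eq_zero]
    exact hz0
  have hxj : ∀ j, aff x j = algebraMap k Ω (z j / z 0) := by
    intro j
    have h3 : l = (algebraMap k Ω (z 0))⁻¹ := by
      rw [eq_comm, inv_eq_iff_eq_inv, ← one_div, eq_div_iff (by
        intro h
        rw [h, zero_mul] at hz1
        exact one_ne_zero hz1), mul_comm]
      exact hz1.symm
    rw [hz j, h3, map_div₀, div_eq_mul_inv, mul_comm]
  refine ⟨fun hi => ?_, fun j => ?_⟩
  · have hi' : AlgebraicIndependent k y := hi.extendScalars k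
    obtain ⟨w, hw⟩ := hl z (fun h => hz0 (congrFun h 0))
    set a : Fin 4 → k := fun j => ∑ i, pL (fun e => algebraMap K k (c e)) i j * z i with ha
    have hp : aeval y (∑ j, C (a j) * aff X j : MvPolynomial (Fin 3) k) = 0 := by
      have e1 : ∀ j, aeval y (aff X j : MvPolynomial (Fin 3) k) = aff y j := by
        intro j
        refine Fin.cases ?_ (fun i => ?_) j
        · show aeval y (1 : MvPolynomial (Fin 3) k) = 1
          rw [map_one]
        · show aeval y (X i : MvPolynomial (Fin 3) k) = y i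
          rw [aeval_X]
      rw [map_sum]
      simp only [map_mul, algHom_C, e1]
      have e2 : ∑ i, ∑ j, algebraMap K Ω (pL c i j) * (aff x i * aff y j) = 0 := hon.1
      rw [Finset.sum_comm] at e2
      have e3 : ∑ j, algebraMap k Ω (a j) * aff y j =
          algebraMap k Ω (z 0) * ∑ j, ∑ i, algebraMap K Ω (pL c i j) * (aff x i * aff y j) := by
        rw [Finset.mul_sum]
        refine Finset.sum_congr rfl fun j _ => ?_
        rw [ha, map_sum, Finset.sum_mul, Finset.mul_sum]
        refine Finset.sum_congr rfl fun i _ => ?_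
        have e4 : pL (fun e => algebraMap K k (c e)) i j = algebraMap K k (pL c i j) := rfl
        rw [map_mul, e4, ← IsScalarTower.algebraMap_apply K k Ω, hxj i, map_div₀]
        field_simp
      rw [e3, e2, mul_zero]
    have hp0 := (algebraicIndependent_iff.mp hi') _ hp
    have hev : ∀ v : Fin 3 → k, ∑ j, a j * aff v j = 0 := by
      intro v
      have h3 := congrArg (eval v) hp0
      rw [map_sum, map_zero] at h3
      rw [← h3]
      refine Finset.sum_congr rfl fun j _ => ?_
      rw [map_mul, eval_C]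
      congr 1
      refine Fin.cases ?_ (fun i => ?_) j
      · show (1 : k) = eval v (1 : MvPolynomial (Fin 3) k)
        rw [map_one]
      · show v i = eval v (X i)
        rw [eval_X]
    have ha0 : a 0 = 0 := by
      have h3 := hev 0
      rw [Fin.sum_univ_succ] at h3
      have h4 : ∑ i : Fin 3, a i.succ * aff (0 : Fin 3 → k) i.succ = 0 := by
        refine Finset.sum_eq_zero fun i _ => ?_
        show a i.succ * 0 = 0
        rw [mul_zero]
      rw [h4, add_zero] at h3
      have h5 : aff (0 : Fin 3 → k) 0 = 1 := rfl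
      rwa [h5, mul_one] at h3
    have haj : ∀ i : Fin 3, a i.succ = 0 := by
      intro i
      have h3 := hev (Pi.single i 1)
      rw [Fin.sum_univ_succ, ha0, zero_mul, zero_add, Finset.sum_eq_single i] at h3
      · have h5 : aff (Pi.single i 1 : Fin 3 → k) i.succ = 1 := by
          show (Pi.single i 1 : Fin 3 → k) i = 1
          rw [Pi.single_eq_same]
        rwa [h5, mul_one] at h3
      · intro j _ hj
        have h5 : aff (Pi.single i 1 : Fin 3 → k) j.succ = 0 := by
          show (Pi.single i 1 : Fin 3 → k) j = 0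
          rw [Pi.single_eq_of_ne hj]
        rw [h5, mul_zero]
      · intro h
        exact absurd (Finset.mem_univ i) h
    have haa : ∀ j, a j = 0 := fun j => Fin.cases ha0 haj j
    apply hw
    show ∑ i, ∑ j, algebraMap k k (pL (fun e => algebraMap K k (c e)) i j) * (z i * w j) = 0
    rw [Finset.sum_comm]
    refine Finset.sum_eq_zero fun j _ => ?_
    have h6 : ∑ i, algebraMap k k (pL (fun e => algebraMap K k (c e)) i j) * (z i * w j) =
        a j * w j := by
      rw [ha, Finset.sum_mul]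
      refine Finset.sum_congr rfl fun i _ => ?_
      show pL (fun e => algebraMap K k (c e)) i j * (z i * w j) = _
      ring
    rw [h6, haa j, zero_mul]
  · have h3 : x j = algebraMap k Ω (z j.succ / z 0) := hxj j.succ
    rw [h3]
    exact (Algebra.IsAlgebraic.isAlgebraic (R := K) (z j.succ / z 0)).algebraMap

/-- The main step. -/
theorem core {K k Ω : Type} [Field K] [Field k] [Field Ω] [Algebra K k] [Algebra K Ω]
    [Algebra k Ω] [IsScalarTower K k Ω] [IsAlgClosed k] [Algebra.IsAlgebraic K k]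
    (h2 : (2 : K) ≠ 0) (c : Ix → K) (hH : deh (cH c 0 0) ≠ 0)
    (hb : ∀ z : Fin 4 → k, (∀ i j, eval z (cH (fun e => algebraMap K k (c e)) i j) = 0) →
      z 3 = 0 → z = 0)
    (hl : ∀ z : Fin 4 → k, z ≠ 0 → ∃ w, ¬ OnL (pL fun e => algebraMap K k (c e)) z w)
    (x y : Fin 3 → Ω) (hon : OnX c (aff x) (aff y))
    (g1 : ¬ AlgebraicIndependent K x →
      ∃ j, Transcendental (IntermediateField.adjoin K (Set.range x)) (y j))
    (g2 : ¬ AlgebraicIndependent K y →
      ∃ j, Transcendental (IntermediateField.adjoin K (Set.range y)) (x j))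
    (h0 : aeval (aff x) (cH c 0 0) = 0) : False := by
  by_cases hc : ∃ i j, aeval (aff x) (cH c i j) ≠ 0
  · have hx : ¬ AlgebraicIndependent K x := by
      intro hi
      have h3 : aeval x (deh (cH c 0 0)) = 0 := by
        rw [aeval_deh]
        exact h0
      exact hH ((algebraicIndependent_iff.mp hi) _ h3)
    obtain ⟨j, hj⟩ := g1 hx
    exact case_one h2 c x y hon h0 hc j hj
  · push Not at hc
    obtain ⟨h3, h4⟩ := case_two c hb hl x y hon hc
    obtain ⟨j, hj⟩ := g2 h3
    exact hj ((h4 j).tower_top _)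

theorem height_le {K : Type} [Field K] (c : Ix → K)
    (P : Ideal (MvPolynomial (Fin 3 ⊕ Fin 3) K)) (hP : P ∈ (chartIdeal c).minimalPrimes) :
    P.height ≤ 3 := by
  unfold chartIdeal at hP
  refine (Ideal.height_le_card_of_mem_minimalPrimes_span (Set.toFinite _) hP).trans ?_
  refine (Nat.cast_le (α := ℕ∞)).mpr ?_ |>.trans (le_of_eq (by norm_num : ((3 : ℕ) : ℕ∞) = 3))
  refine (Set.ncard_insert_le _ _).trans ?_
  have h1 := Set.ncard_insert_le
    (∑ i, ∑ j, C (pL' c i j) * (aff (fun i => X (.inl i)) i * aff (fun i => X (.inr i)) j) :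
      MvPolynomial (Fin 3 ⊕ Fin 3) K)
    {∑ i, ∑ j, ∑ k, ∑ l, C (pQ c i j k l) * (aff (fun i => X (.inl i)) i *
      aff (fun i => X (.inl i)) j * (aff (fun i => X (.inr i)) k * aff (fun i => X (.inr i)) l))}
  rw [Set.ncard_singleton] at h1
  omega

/-- CY-12d, for a given generic point. -/
theorem den_notMem_of {K k Ω : Type} [Field K] [Field k] [Field Ω] [Algebra K k] [Algebra K Ω]
    [Algebra k Ω] [IsScalarTower K k Ω] [IsAlgClosed k] [Algebra.IsAlgebraic K k]
    (h2 : (2 : K) ≠ 0) (c : Ix → K) (hH : deh (cH c 0 0) ≠ 0) (hG : deh (cG c 0 0) ≠ 0)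
    (hcond : Pool.Agent.Helper63.NPD.Cond4 (pL fun e => algebraMap K k (c e))
      (pL' fun e => algebraMap K k (c e)) (pQ fun e => algebraMap K k (c e)))
    (P : Ideal (MvPolynomial (Fin 3 ⊕ Fin 3) K)) (hP : P ∈ (chartIdeal c).minimalPrimes)
    (φ : MvPolynomial (Fin 3 ⊕ Fin 3) K →ₐ[K] Ω) (hφ : RingHom.ker φ = P) : den c ∉ P := by
  intro hd
  obtain ⟨x, hx⟩ : ∃ x : Fin 3 → Ω, ∀ i, x i = φ (X (.inl i)) := ⟨_, fun i => rfl⟩
  obtain ⟨y, hy⟩ : ∃ y : Fin 3 → Ω, ∀ i, y i = φ (X (.inr i)) := ⟨_, fun i => rfl⟩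
  have hφ1 : aeval (Sum.elim x y) = φ := by
    refine MvPolynomial.algHom_ext fun i => ?_
    rw [aeval_X]
    rcases i with i | i
    · exact hx i
    · exact hy i
  have hφ2 : ∀ a : MvPolynomial (Fin 3 ⊕ Fin 3) K, aeval (Sum.elim y x) a =
      φ (renameEquiv K (Equiv.sumComm (Fin 3) (Fin 3)) a) := by
    intro a
    rw [← hφ1, renameEquiv_apply, aeval_rename]
    congr 2
    funext i
    rcases i with i | i <;> rfl
  have hh := height_le c P hP
  have hh1 : (RingHom.ker (aeval (Sum.elim x y) :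
      MvPolynomial (Fin 3 ⊕ Fin 3) K →ₐ[K] Ω)).height ≤ 3 := by
    rw [hφ1, hφ]
    exact hh
  have hh2 : (RingHom.ker (aeval (Sum.elim y x) :
      MvPolynomial (Fin 3 ⊕ Fin 3) K →ₐ[K] Ω)).height ≤ 3 := by
    have h3 : RingHom.ker (aeval (Sum.elim y x) : MvPolynomial (Fin 3 ⊕ Fin 3) K →ₐ[K] Ω) =
        P.comap (renameEquiv K (Equiv.sumComm (Fin 3) (Fin 3))).toRingEquiv := by
      ext a
      rw [RingHom.mem_ker, hφ2, Ideal.mem_comap]
      conv_rhs => rw [← hφ, RingHom.mem_ker]
      rfl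
    rw [h3, RingEquiv.height_comap]
    exact hh
  have hon : OnX c (aff x) (aff y) := by
    have h3 := (chartIdeal_le c φ).mp (by
      rw [hφ]
      exact hP.1.2)
    have ex : (fun i => φ (X (.inl i))) = x := funext fun i => (hx i).symm
    have ey : (fun i => φ (X (.inr i))) = y := funext fun i => (hy i).symm
    rwa [ex, ey] at h3
  have hden : aeval (aff x) (cH c 0 0) * aeval (aff y) (cG c 0 0) = 0 := by
    have h3 : φ (den c) = 0 := by
      rw [← RingHom.mem_ker, hφ]
      exact hd
    rwa [← hφ1, den, map_mul, aeval_aff_inl, aeval_aff_inr] at h3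
  have g1 := Frame2.generic_point x y hh1
  have g2 := Frame2.generic_point y x hh2
  rcases mul_eq_zero.mp hden with h0 | h0
  · exact core h2 c hH (fun z hz => hcond.bad' z hz) hcond.lin x y hon g1 g2 h0
  · refine core (k := k) h2 (fun e => c (swI e)) ?_ ?_ ?_ y x (onX_swap c _ _ hon) g2 g1 ?_
    · rw [← cG_eq_cH]
      exact hG
    · intro z hz
      refine hcond.bad z fun i j => ?_
      have h3 := hz i j
      have h4 := cG_eq_cH (fun e => algebraMap K k (c e)) i j
      rw [← h4] at h3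
      exact h3
    · intro z hz
      obtain ⟨w, hw⟩ := hcond.lin' z hz
      refine ⟨w, fun h => hw ?_⟩
      exact (onL_swap _ _ _).mp h
    · rw [← cG_eq_cH]
      exact h0

/-- The generic point of a prime. -/
theorem exists_generic {K σ : Type} [Field K] (P : Ideal (MvPolynomial σ K)) (hP : P.IsPrime) :
    ∃ (Ω : Type) (_ : Field Ω) (_ : Algebra K Ω) (_ : IsAlgClosed Ω)
      (φ : MvPolynomial σ K →ₐ[K] Ω), RingHom.ker φ = P := by
  refine ⟨AlgebraicClosure (FractionRing (MvPolynomial σ K ⧸ P)), inferInstance, inferInstance,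
    inferInstance, (IsScalarTower.toAlgHom K (FractionRing (MvPolynomial σ K ⧸ P)) _).comp
      ((IsScalarTower.toAlgHom K (MvPolynomial σ K ⧸ P) (FractionRing _)).comp
        (Ideal.Quotient.mkₐ K P)), ?_⟩
  ext a
  rw [RingHom.mem_ker, AlgHom.comp_apply, IsScalarTower.coe_toAlgHom', map_eq_zero,
    AlgHom.comp_apply, IsScalarTower.coe_toAlgHom', FaithfulSMul.algebraMap_eq_zero_iff]
  exact Ideal.Quotient.eq_zero_iff_mem

/-- CY-12d. -/
theorem den_notMem {K k : Type} [Field K] [Field k] [Algebra K k] [IsAlgClosed k]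
    [Algebra.IsAlgebraic K k] (h2 : (2 : K) ≠ 0) (c : Ix → K) (hH : deh (cH c 0 0) ≠ 0)
    (hG : deh (cG c 0 0) ≠ 0)
    (hcond : Pool.Agent.Helper63.NPD.Cond4 (pL fun e => algebraMap K k (c e))
      (pL' fun e => algebraMap K k (c e)) (pQ fun e => algebraMap K k (c e)))
    (P : Ideal (MvPolynomial (Fin 3 ⊕ Fin 3) K)) (hP : P ∈ (chartIdeal c).minimalPrimes) :
    den c ∉ P := by
  obtain ⟨Ω, _, _, _, φ, hφ⟩ := exists_generic P hP.1.1
  let ι : k →ₐ[K] Ω := IsAlgClosed.lift
  let _ : Algebra k Ω := ι.toRingHom.toAlgebra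
  have : IsScalarTower K k Ω := IsScalarTower.of_algebraMap_eq fun r => (ι.commutes r).symm
  exact den_notMem_of h2 c hH hG hcond P hP φ hφ

end Pool.Agent.Helper31.CYD
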